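import Pool.Agent.Q22.CG.Two

/-!
# Fields of every degree `n ≥ 3` and every signature with `m`-rank at least `r₂ + 2`

Let `n ≥ 3`, `m ≥ 2` and `0 ≤ r ≤ n / 2`.  There are `c > 0` and `X₀` such that for all `X ≥ X₀`
at least `c X^(1/(m(n-1))) / (log X)^5` pairwise nonisomorphic number fields `K` of degree `n` with
`|disc K| ≤ X` have exactly `r` complex places and a class group containing `(ℤ/m)^(r+2)`.

Proof.  The fields are generated by the roots of `L f(X) + s^m`, `L c = t^m - s^m`, where
`f = ∏ (X - a i)` takes the same value `c > 0` at two further integers.  The number of the real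
places is the number of the real solutions of `f(X) = - v`, `v = c / ((t/s)^m - 1)`.  We find, in every
degree, such an `f` for which the local minima of `f` have different values: then `f = - v` has every
number of real solutions between `n mod 2` and `n` (of the right parity), for `v` in some interval.
Such an `f` is constructed by induction on the degree: one adds a very large root `y`, and moves the
smallest root a little (which restores the equal values at the two points); the new `f / y` is
near `- f` on compact sets, so that the old extrema keep different absolute values, and the new one is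
much larger.
-/

set_option autoImplicit false

namespace Pool.Agent.Results.MP_176ace_nt.EverySignature

open NumberField

/-- For all `n ≥ 3`, `m ≥ 2` and `r` with `2 r ≤ n` there are many number fields of degree `n` with
exactly `n - 2 r` real and `r` complex places whose class group contains `(ℤ/m)^(r+2)`: at least
`c X^(1/(m(n-1))) / (log X)^5` pairwise nonisomorphic ones with `|disc| ≤ X`. -/
theorem result :
    ∀ n r m : ℕ, 3 ≤ n → 2 * r ≤ n → 2 ≤ m →
      ∃ c X₀ : ℝ, 0 < c ∧ ∀ X : ℝ, X₀ ≤ X →
        ∃ (q : ℕ) (K : Fin q → Type) (_ : ∀ i, Field (K i)) (_ : ∀ i, NumberField (K i)),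
          c * X ^ ((1 : ℝ) / (m * (n - 1) : ℕ)) / Real.log X ^ 5 ≤ q ∧
          (∀ i j, i ≠ j → IsEmpty (K i ≃+* K j)) ∧
          ∀ i, Module.finrank ℚ (K i) = n ∧ InfinitePlace.nrRealPlaces (K i) = n - 2 * r ∧
            InfinitePlace.nrComplexPlaces (K i) = r ∧ |(discr (K i) : ℝ)| ≤ X ∧
            ∃ f : Multiplicative (Fin (r + 2) → ZMod m) →* ClassGroup (𝓞 (K i)),
              Function.Injective f := by
  intro n r m hn hr hm
  obtain ⟨D, x, y, hx, hxy, hreal⟩ := Q22.CG.dat2 n hn r (by omega) m hm
  obtain ⟨c, X₀, hc, h⟩ := Q22.CG.count (by omega) (by norm_num) D m hm x y hx hxy (n - 2 * r) hreal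
  refine ⟨c, X₀, hc, fun X hX => ?_⟩
  obtain ⟨q, K, hF, hN, h1, h2, h3⟩ := h X hX
  refine ⟨q, K, hF, hN, h1, h2, fun i => ?_⟩
  obtain ⟨⟨h4, h5, h6⟩, h7⟩ := h3 i
  have h8 := InfinitePlace.card_add_two_mul_card_eq_rank (K i)
  have h9 := W289.CG.rank_eq (K i)
  exact ⟨h4, h5, by omega, h7, h6 _ (by omega)⟩

end Pool.Agent.Results.MP_176ace_nt.EverySignature
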