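import Pool.Agent.Q22.CG.Fin

/-!
# Counting number fields of degree `n` with large `m`-rank of the class group
-/

set_option autoImplicit false

namespace Pool.Agent.Results.MP_176ace_nt.ManyFields

open NumberField

/-- Let `n ≥ 3`, `m ≥ 2`, let `r` be `⌊n/2⌋` or `0`, and let `κ = n - 1` if `n ≤ 10` or `n = 12`,
`κ = 4` if `n` is odd with `11 ≤ n ≤ 27`, and `κ = 6` in all other cases.  There are `c > 0` and
`X₀` such that for all `X ≥ X₀` at least `c X^(1/(m(n-1))) / (log X)^5` pairwise nonisomorphic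
number fields `K` of degree `n` with `|disc K| ≤ X` have exactly `r` complex places and a class
group containing `(ℤ/m)^(r+κ)`. -/
theorem result :
    ∀ n κ r m : ℕ, 3 ≤ n →
      κ = (if n ≤ 10 ∨ n = 12 then n - 1 else if n % 2 = 1 ∧ n ≤ 27 then 4 else 6) →
      (r = n / 2 ∨ r = 0) → 2 ≤ m →
      ∃ c X₀ : ℝ, 0 < c ∧ ∀ X : ℝ, X₀ ≤ X →
        ∃ (q : ℕ) (K : Fin q → Type) (_ : ∀ i, Field (K i)) (_ : ∀ i, NumberField (K i)),
          c * X ^ ((1 : ℝ) / (m * (n - 1) : ℕ)) / Real.log X ^ 5 ≤ q ∧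
          (∀ i j, i ≠ j → IsEmpty (K i ≃+* K j)) ∧
          ∀ i, Module.finrank ℚ (K i) = n ∧ InfinitePlace.nrComplexPlaces (K i) = r ∧
            |(discr (K i) : ℝ)| ≤ X ∧
            ∃ f : Multiplicative (Fin (r + κ) → ZMod m) →* ClassGroup (𝓞 (K i)),
              Function.Injective f := by
  intro n κ r m hn hκ hr hm
  obtain ⟨D⟩ := Q22.CG.dat n κ hn hκ
  have hκ1 : 1 ≤ κ := by
    rw [hκ]
    split_ifs with h1 h2 <;> omega
  rcases hr with hr | hr
  · obtain ⟨x, y, hx, hxy, hreal⟩ := Q22.CG.few (by omega) D m hm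
    obtain ⟨c, X₀, hc, h⟩ := Q22.CG.count (by omega) hκ1 D m hm x y hx hxy (n % 2) hreal
    refine ⟨c, X₀, hc, fun X hX => ?_⟩
    obtain ⟨q, K, hF, hN, h1, h2, h3⟩ := h X hX
    refine ⟨q, K, hF, hN, h1, h2, fun i => ?_⟩
    obtain ⟨⟨h4, h5, h6⟩, h7⟩ := h3 i
    have h8 := InfinitePlace.card_add_two_mul_card_eq_rank (K i)
    have h9 := W289.CG.rank_eq (K i)
    exact ⟨h4, by omega, h7, h6 _ (by omega)⟩
  · obtain ⟨x, y, hx, hxy, hreal⟩ := Q22.CG.all (by omega) D m hm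
    obtain ⟨c, X₀, hc, h⟩ := Q22.CG.count (by omega) hκ1 D m hm x y hx hxy n hreal
    refine ⟨c, X₀, hc, fun X hX => ?_⟩
    obtain ⟨q, K, hF, hN, h1, h2, h3⟩ := h X hX
    refine ⟨q, K, hF, hN, h1, h2, fun i => ?_⟩
    obtain ⟨⟨h4, h5, h6⟩, h7⟩ := h3 i
    have h8 := InfinitePlace.card_add_two_mul_card_eq_rank (K i)
    have h9 := W289.CG.rank_eq (K i)
    exact ⟨h4, by omega, h7, h6 _ (by omega)⟩

end Pool.Agent.Results.MP_176ace_nt.ManyFields
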