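import Pool.Agent.Q136.CG.Step

set_option autoImplicit false

namespace Pool.Agent.Results.MP_176ace_nt.MultiplesOfDegree

/-- `HasRank m r K`: the class group of the number field `K` contains a subgroup isomorphic to `(ℤ/m)^r`,
i.e. (for `m > 1`) its `m`-rank is at least `r`. -/
def HasRank (m r : ℕ) (K : Type) [Field K] [NumberField K] : Prop :=
  ∃ f : Multiplicative (Fin r → ZMod m) →* ClassGroup (NumberField.RingOfIntegers K), Function.Injective f

/-- The statement `S(d,m)` of the problem: the `m`-rank of the class groups of the number fields of degree `d`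
is unbounded. -/
def Unbounded (d m : ℕ) : Prop :=
  ∀ r : ℕ, ∃ (K : Type) (_ : Field K) (_ : NumberField K), Module.finrank ℚ K = d ∧ HasRank m r K

theorem result :
    -- for all `d`, `m`, `k ≥ 1` there is a constant `C` such that every number field `K` of degree `d` with
    -- `m`-rank at least `r + C` has an extension of degree `k` with `km`-rank at least `r`
    (∀ d m k : ℕ, 0 < m → 0 < k → ∃ C : ℕ, ∀ (K : Type) [Field K] [NumberField K],
      Module.finrank ℚ K = d → ∀ r : ℕ, HasRank m (r + C) K →
        ∃ (L : Type) (_ : Field L) (_ : NumberField L) (_ : Algebra K L),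
          Module.finrank K L = k ∧ HasRank (k * m) r L) ∧
    -- hence `S(d,m)` implies `S(kd,km)`
    (∀ d m k : ℕ, 0 < m → 0 < k → Unbounded d m → Unbounded (k * d) (k * m)) ∧
    -- `S(d,m)` holds for every even `d` and every divisor `m` of `2d`
    (∀ d m : ℕ, 0 < d → Even d → m ∣ 2 * d → Unbounded d m) ∧
    -- for each `m`, `S(d,m)` holds for all `d > 1` if and only if it holds for all primes `d`
    (∀ m : ℕ, 0 < m → ((∀ d : ℕ, 1 < d → Unbounded d m) ↔ ∀ p : ℕ, p.Prime → Unbounded p m)) :=
  ⟨fun d m k hm hk => Pool.Agent.Q136.CG.step k hk d m hm,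
    fun d m k hm hk h => Pool.Agent.Q136.CG.S_step d m k hm hk h,
    fun d m hd he hm => Pool.Agent.Q136.CG.S_even d m hd he hm,
    fun m hm => Pool.Agent.Q136.CG.S_prime_iff m hm⟩

end Pool.Agent.Results.MP_176ace_nt.MultiplesOfDegree
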